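import Pool.Agent.Helper70.ML.St3

set_option autoImplicit false

namespace Pool.Agent.Helper29.ML

open Pool.Agent.Helper70.ML Pool.Agent.Helper75.MX

section

variable {n : ℕ} {F : Type} [Field F]

theorem mono_mul {g h : SLn n F} {σ τ : Equiv.Perm (Fin n)} {c d : Fin n → F}
    (hg : Mono g σ c) (hh : Mono h τ d) : Mono (g * h) (σ * τ) (fun j => c (τ j) * d j) := by
  refine ⟨fun j => mul_ne_zero (hg.1 _) (hh.1 _), fun i j => ?_⟩
  rw [Matrix.SpecialLinearGroup.coe_mul, Matrix.mul_apply]
  rw [Finset.sum_eq_single (τ j)]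
  · rw [hg.2, hh.2]
    by_cases h1 : i = σ (τ j)
    · simp [h1]
    · simp [h1]
  · intro b _ hb
    rw [hh.2, if_neg hb, mul_zero]
  · intro h1
    exact absurd (Finset.mem_univ _) h1

theorem mono_inv {g : SLn n F} {σ : Equiv.Perm (Fin n)} {c : Fin n → F}
    (hg : Mono g σ c) : Mono g⁻¹ σ⁻¹ (fun j => (c (σ⁻¹ j))⁻¹) := by
  refine ⟨fun j => inv_ne_zero (hg.1 _), ?_⟩
  obtain ⟨B, hB⟩ : ∃ B : Matrix (Fin n) (Fin n) F,
    ∀ i j, B i j = if i = σ⁻¹ j then (c (σ⁻¹ j))⁻¹ else 0 := ⟨fun i j => _, fun i j => rfl⟩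
  have h1 : g.1 * B = 1 := by
    ext i j
    rw [Matrix.mul_apply, Finset.sum_eq_single (σ⁻¹ j)]
    · rw [hg.2, hB, if_pos rfl]
      have h2 : σ (σ⁻¹ j) = j := by simp
      rw [h2]
      by_cases h3 : i = j
      · subst h3
        rw [if_pos rfl, Matrix.one_apply_eq, mul_inv_cancel₀ (hg.1 _)]
      · rw [if_neg h3, zero_mul, Matrix.one_apply_ne h3]
    · intro b _ hb
      rw [hB, if_neg hb, mul_zero]
    · intro h1
      exact absurd (Finset.mem_univ _) h1
  have h2 : (g⁻¹).1 = B := by
    have h3 : (g⁻¹).1 * g.1 = 1 := by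
      rw [← Matrix.SpecialLinearGroup.coe_mul, inv_mul_cancel, Matrix.SpecialLinearGroup.coe_one]
    calc (g⁻¹).1 = (g⁻¹).1 * (g.1 * B) := by rw [h1, mul_one]
      _ = B := by rw [← mul_assoc, h3, one_mul]
  intro i j
  rw [h2, hB]

theorem tv_val {i j : Fin n} (hij : i ≠ j) (a : F) :
    (tv i j a : SLn n F).1 = 1 + Matrix.single i j a := by
  unfold tv
  rw [dif_pos hij]
  rfl

theorem mono_conj {g : SLn n F} {σ : Equiv.Perm (Fin n)} {c : Fin n → F}
    (hg : Mono g σ c) (i j : Fin n) (a : F) (hij : i ≠ j) :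
    g * tv i j a * g⁻¹ = tv (σ i) (σ j) (c i * (c j)⁻¹ * a) := by
  have hs : σ i ≠ σ j := fun h => hij (σ.injective h)
  rw [mul_inv_eq_iff_eq_mul]
  apply Subtype.ext
  have e1 : (g * tv i j a).1 = g.1 * (tv i j a : SLn n F).1 := Matrix.SpecialLinearGroup.coe_mul _ _
  have e2 : (tv (σ i) (σ j) (c i * (c j)⁻¹ * a) * g).1
    = (tv (σ i) (σ j) (c i * (c j)⁻¹ * a) : SLn n F).1 * g.1 := Matrix.SpecialLinearGroup.coe_mul _ _
  rw [e1, e2, tv_val hij, tv_val hs, mul_add, add_mul, mul_one, one_mul]
  congr 1
  ext k l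
  rw [Matrix.mul_apply, Matrix.mul_apply, Finset.sum_eq_single i, Finset.sum_eq_single (σ j)]
  · rw [hg.2, hg.2]
    by_cases h1 : j = l
    · subst h1
      rw [Matrix.single_apply_same, if_pos rfl]
      by_cases h2 : k = σ i
      · subst h2
        rw [Matrix.single_apply_same, if_pos rfl]
        have := hg.1 j
        field_simp
      · rw [if_neg h2, Matrix.single_apply_of_row_ne (Ne.symm h2)]
        ring
    · rw [Matrix.single_apply_of_col_ne _ _ h1, if_neg (fun h => h1 (σ.injective h))]
      ring
  · intro b _ hb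
    rw [Matrix.single_apply_of_col_ne _ _ (Ne.symm hb), zero_mul]
  · intro h1
    exact absurd (Finset.mem_univ _) h1
  · intro b _ hb
    rw [Matrix.single_apply_of_row_ne (Ne.symm hb), mul_zero]
  · intro h1
    exact absurd (Finset.mem_univ _) h1

theorem mono_uniq {g : SLn n F} {σ τ : Equiv.Perm (Fin n)} {c d : Fin n → F}
    (hg : Mono g σ c) (hh : Mono g τ d) : σ = τ ∧ c = d := by
  have h1 : ∀ j, σ j = τ j := by
    intro j
    by_contra h
    have e1 := hg.2 (σ j) j
    have e2 := hh.2 (σ j) j
    rw [if_pos rfl] at e1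
    rw [if_neg h] at e2
    exact hg.1 j (e1.symm.trans e2)
  refine ⟨Equiv.ext h1, funext fun j => ?_⟩
  have e1 := hg.2 (σ j) j
  have e2 := hh.2 (σ j) j
  rw [if_pos rfl] at e1
  rw [if_pos (h1 j)] at e2
  exact e1.symm.trans e2

theorem mono_diag (c : Fin n → F) (hc : ∏ j, c j = 1) : ∃ g : SLn n F, Mono g 1 c := by
  refine ⟨⟨Matrix.diagonal c, by rw [Matrix.det_diagonal, hc]⟩, ?_, ?_⟩
  · intro j h
    have : ∏ j, c j = 0 := Finset.prod_eq_zero (Finset.mem_univ j) h
    rw [hc] at this
    exact one_ne_zero this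
  · intro i j
    show Matrix.diagonal c i j = _
    rw [Matrix.diagonal_apply, Equiv.Perm.one_apply]
    by_cases h : i = j
    · subst h; simp
    · simp [h]

theorem mono_N (i j : Fin n) (a : F) (hij : i ≠ j) (ha : a ≠ 0) :
    Mono (tv i j a * tv j i (-a⁻¹) * tv i j a) (Equiv.swap i j) (wc i j a) := by
  constructor
  · intro k
    unfold wc
    split_ifs
    · exact neg_ne_zero.2 (inv_ne_zero ha)
    · exact ha
    · exact one_ne_zero
  · have e1 : (tv i j a * tv j i (-a⁻¹) * tv i j a : SLn n F).1
      = (1 + Matrix.single i j a) * (1 + Matrix.single j i (-a⁻¹)) * (1 + Matrix.single i j a) := by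
      rw [Matrix.SpecialLinearGroup.coe_mul, Matrix.SpecialLinearGroup.coe_mul]
      rw [← tv_val hij, ← tv_val hij.symm]
    have e2 : (1 + Matrix.single i j a) * (1 + Matrix.single j i (-a⁻¹)) * (1 + Matrix.single i j a)
      = (1 : Matrix (Fin n) (Fin n) F) + Matrix.single i j a + Matrix.single j i (-a⁻¹)
        - Matrix.single i i 1 - Matrix.single j j 1 := by
      have f1 : Matrix.single i j a * Matrix.single j i (-a⁻¹) = (Matrix.single i i (-1) : Matrix (Fin n) (Fin n) F) := by
        rw [Matrix.single_mul_single_same]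
        congr 1
        field_simp
      have f2 : Matrix.single j i (-a⁻¹) * Matrix.single i j a = (Matrix.single j j (-1) : Matrix (Fin n) (Fin n) F) := by
        rw [Matrix.single_mul_single_same]
        congr 1
        field_simp
      have f3 : Matrix.single i j a * Matrix.single i j a = (0 : Matrix (Fin n) (Fin n) F) :=
        Matrix.single_mul_single_of_ne _ _ _ _ hij.symm _
      have f4 : Matrix.single i i (-1) * Matrix.single i j a = (Matrix.single i j (-a) : Matrix (Fin n) (Fin n) F) := by
        rw [Matrix.single_mul_single_same]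
        congr 1
        ring
      have g1 : (Matrix.single i i (-1) : Matrix (Fin n) (Fin n) F) = - Matrix.single i i 1 := by
        rw [Matrix.single_neg]
      have g2 : (Matrix.single j j (-1) : Matrix (Fin n) (Fin n) F) = - Matrix.single j j 1 := by
        rw [Matrix.single_neg]
      have g3 : (Matrix.single i j (-a) : Matrix (Fin n) (Fin n) F) = - Matrix.single i j a := by
        rw [Matrix.single_neg]
      calc (1 + Matrix.single i j a) * (1 + Matrix.single j i (-a⁻¹)) * (1 + Matrix.single i j a)
          = (1 : Matrix (Fin n) (Fin n) F) + Matrix.single i j a + Matrix.single j i (-a⁻¹)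
            + Matrix.single i j a * Matrix.single j i (-a⁻¹)
            + Matrix.single i j a + Matrix.single i j a * Matrix.single i j a
            + Matrix.single j i (-a⁻¹) * Matrix.single i j a
            + Matrix.single i j a * Matrix.single j i (-a⁻¹) * Matrix.single i j a := by noncomm_ring
        _ = _ := by
          rw [f1, f2, f3, f4, g1, g2, g3]
          abel
    intro k l
    rw [e1, e2]
    have hji : j ≠ i := hij.symm
    simp only [Matrix.sub_apply, Matrix.add_apply, Matrix.one_apply, Matrix.single_apply]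
    unfold wc
    by_cases l1 : l = i
    · subst l1
      rw [Equiv.swap_apply_left]
      by_cases k1 : k = j
      · subst k1
        simp [hij, hji]
      · by_cases k2 : k = l
        · subst k2
          simp [hij, hji]
        · simp [hij, hji, k1, k2, Ne.symm k1, Ne.symm k2]
    · by_cases l2 : l = j
      · subst l2
        rw [Equiv.swap_apply_right]
        by_cases k1 : k = i
        · subst k1
          simp [hij, hji]
        · by_cases k2 : k = l
          · subst k2
            simp [hij, hji]
          · simp [hij, hji, k1, k2, Ne.symm k1, Ne.symm k2]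
      · rw [Equiv.swap_apply_of_ne_of_ne l1 l2]
        by_cases k1 : k = l
        · subst k1
          simp [hij, hji, l1, l2, Ne.symm l1, Ne.symm l2]
        · simp [hij, hji, k1, l1, l2, Ne.symm l1, Ne.symm l2]

end

theorem hPMON : StPMON := by
  intro n F _
  refine ⟨fun g h σ τ c d => mono_mul, fun g σ c => mono_inv, fun g σ c hg => mono_conj hg,
    fun g σ τ c d => mono_uniq, ?_, mono_diag, mono_N, ?_⟩
  · refine ⟨fun _ => one_ne_zero, fun i j => ?_⟩
    rw [Matrix.SpecialLinearGroup.coe_one, Matrix.one_apply, Equiv.Perm.one_apply]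
  · intro i j a hij ha
    have h1 := mono_N i j a hij ha
    have h2 := mono_N i j (1 : F) hij one_ne_zero
    rw [inv_one] at h2
    have h3 := mono_mul h1 (mono_inv h2)
    rw [mul_inv_cancel] at h3
    convert h3 using 1
    funext k
    rw [Equiv.swap_inv]
    unfold hc wc
    have hji : j ≠ i := hij.symm
    by_cases k1 : k = i
    · subst k1
      rw [Equiv.swap_apply_left]
      simp [hij, hji]
    · by_cases k2 : k = j
      · subst k2
        rw [Equiv.swap_apply_right]
        simp [hij, hji]
      · rw [Equiv.swap_apply_of_ne_of_ne k1 k2]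
        simp [k1, k2]

end Pool.Agent.Helper29.ML
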